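import Pool.Agent.H98.HD.Up

/-!
The weakly compact filter is generated by the `1`-clubs; it is normal and reflects stationary sets.
-/

set_option autoImplicit false
set_option linter.unusedVariables false

namespace Pool.Agent.H98.HD

open ZFSet Filter Cardinal Pool.Agent.H310.HD Gss969

universe u

variable {κ : Ordinal.{u}}

/-- Diagonal intersections of `1`-clubs are `1`-clubs. -/
theorem oneClub_diag (hκ : WeaklyCompact κ) {R : Ordinal.{u} → Set Ordinal.{u}}
    (hR : ∀ ξ < κ, OneClub κ (R ξ)) {ζ : Ordinal.{u}} (hζ : ζ < κ) :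
    OneClub κ {l | l < κ ∧ ζ < l ∧ ∀ ξ < l, l ∈ R ξ} := by
  classical
  have hinf : ℵ₀ ≤ κ.card := by
    have := Ordinal.card_le_card hκ.reg.om_lt.le
    rwa [Ordinal.card_omega0] at this
  refine ⟨fun l hl => hl.1, ?_, ?_⟩
  · intro C hC1 hC2
    let S : Ordinal.{u} → ZFSet.{u} := fun ξ => ZFSet.sep (fun x => ∃ l ∈ R ξ, l.toZFSet = x) κ.toZFSet
    have hS : ∀ ξ l, l < κ → (l.toZFSet ∈ S ξ ↔ l ∈ R ξ) := by
      intro ξ l hl
      simp only [S, mem_sep]
      constructor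
      · rintro ⟨_, l', h1, h2⟩
        rwa [← Ordinal.toZFSet_injective h2]
      · exact fun h => ⟨tz_mem.2 hl, l, h, rfl⟩
    let bad : Ordinal.{u} → Prop := fun l => ∃ ξ < l, l ∉ R ξ
    let gH : Ordinal.{u} → Ordinal.{u} := fun l => if h : bad l then h.choose else l
    have hs : Small κ ({gC C} ∪ (({gA} ∪ ⋃ i, ⋃ _ : i < κ, {gF i}) ∪ ({gH} ∪
        ⋃ ξ, ⋃ _ : ξ < κ, ({gS (S ξ)} ∪ ⋃ j, ⋃ _ : j < κ, {gN (S ξ) j})))) := by
      refine (Small.single hinf _).union hinf (Small.union hinf ((Small.single hinf _).union hinf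
        (Small.iUnion hinf fun i _ => Small.single hinf _)) (Small.union hinf
          (Small.single hinf _) (Small.iUnion hinf fun μ _ => (Small.single hinf _).union hinf
              (Small.iUnion hinf fun j _ => Small.single hinf _))))
    obtain ⟨D, hD, hn⟩ := exists_normalFor hκ hs
    have := hD.ne
    have hc := club_ae hD hC2 (hn.mono Set.subset_union_left)
    have hr := reg_ae hκ.reg.om_lt hκ.reg hD
      (hn.mono (Set.subset_union_left.trans Set.subset_union_right))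
    have hst : ∀ ξ < κ, ∀ᶠ l in D, l ∈ R ξ := by
      intro ξ hξ
      have h1 : Stat (S ξ) κ.toZFSet := by
        rw [stat_iff]
        exact (hR ξ hξ).2.1.mono fun α hα h => (hS ξ α hα).2 h
      have h2 := stat_ae hκ.reg hD h1 (hn.mono (by
        refine Set.Subset.trans ?_ (Set.subset_union_right.trans
          (Set.subset_union_right.trans Set.subset_union_right))
        intro g hg
        simp only [Set.mem_iUnion]
        exact ⟨ξ, hξ, hg⟩))
      filter_upwards [h2, hr, hD.conc] with l h3 h4 h5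
      refine (hR ξ hξ).2.2 l h5 h4 ?_
      rw [stat_iff] at h3
      refine h3.mono fun α hα h => ?_
      exact (hS ξ α (hα.trans h5)).1 (mem_inter.1 h).1
    have hgood : ∀ᶠ l in D, ¬ bad l := by
      rcases hn gH (Or.inr (Or.inr (Or.inl rfl))) with ⟨ξ, h1⟩ | h1
      · exfalso
        have h2 : ∀ᶠ l in D, ξ < l ∧ l ∉ R ξ := by
          filter_upwards [h1] with l hl
          have hb : bad l := by
            by_contra hcon
            simp only [gH, dif_neg hcon] at hl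
            exact lt_irrefl _ hl.2
          have e1 : ξ = hb.choose := by
            rw [← hl.1]
            simp only [gH, dif_pos hb]
          rw [e1]
          exact hb.choose_spec
        obtain ⟨l, h5, h6⟩ := (h2.and hD.conc).exists
        obtain ⟨l, h8, h9⟩ := ((hst ξ (h5.1.trans h6)).and h2).exists
        exact h9.2 h8
      · filter_upwards [h1] with l h2 hb
        refine h2 ?_
        have e1 : gH l = hb.choose := by simp only [gH, dif_pos hb]
        rw [e1]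
        exact hb.choose_spec.1
    obtain ⟨l, h1, h2, h3, h4⟩ := (hc.and ((hD.tail ζ hζ).and (hgood.and hD.conc))).exists
    refine ⟨l, h4, ⟨h4, h2, fun ξ hξ => ?_⟩, h1⟩
    by_contra hcon
    exact h3 ⟨ξ, hξ, hcon⟩
  · intro l hl hr hst
    have hζl : ζ < l := by
      obtain ⟨α, h1, h2, _⟩ := hst l.toZFSet (fun x hx => hx) ⟨fun x hx => hx, fun x hx => by
        obtain ⟨γ, hγ, rfl⟩ := Ordinal.mem_toZFSet_iff.1 hx
        exact ⟨_, tz_mem.2 (hr.succ_lt hγ), tz_mem.2 (Order.lt_succ γ)⟩, fun a ha _ _ => ha⟩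
      exact h2.2.1.trans h1
    refine ⟨hl, hζl, fun ξ hξ => (hR ξ (hξ.trans hl)).2.2 l hl hr ?_⟩
    exact (hst.tail hr hξ).mono fun α _ h => h.1.2.2 ξ h.2

theorem oneClub_univ (hκ : WeaklyCompact κ) : OneClub κ {l | l < κ} := by
  refine ⟨fun l hl => hl, ?_, fun l hl _ _ => hl⟩
  intro C hC1 hC2
  obtain ⟨c, hc, _⟩ := hC2.2.1 _ (tz_mem.2 hκ.reg.pos)
  obtain ⟨γ, hγ, rfl⟩ := Ordinal.mem_toZFSet_iff.1 (hC1 hc)
  exact ⟨γ, hγ, hγ, hc⟩

theorem oneClub_inter (hκ : WeaklyCompact κ) {R R' : Set Ordinal.{u}} (h : OneClub κ R)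
    (h' : OneClub κ R') : ∃ R'', OneClub κ R'' ∧ R'' ⊆ R ∩ R' := by
  classical
  have h0 : (0 : Ordinal.{u}) < κ := hκ.reg.pos
  have h1 : (1 : Ordinal.{u}) < κ := Ordinal.one_lt_omega0.trans hκ.reg.om_lt
  refine ⟨_, oneClub_diag hκ (R := fun ξ => if ξ = 0 then R else R') (fun ξ _ => ?_) h1, ?_⟩
  · split_ifs
    · exact h
    · exact h'
  · rintro l ⟨h2, h3, h4⟩
    have h5 := h4 0 (zero_lt_one.trans h3)
    have h6 := h4 1 h3
    rw [if_pos rfl] at h5
    rw [if_neg one_ne_zero] at h6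
    exact ⟨h5, h6⟩

/-- The weakly compact filter. -/
theorem exists_wcFilter (hκ : WeaklyCompact κ) : ∃ F : Filter Ordinal.{u}, NormalFilter κ F ∧
    Reflects κ F ∧ (∀ᶠ l in F, RegUnc l.toZFSet) ∧ ∀ X, X ∈ F ↔ ∃ R, OneClub κ R ∧ R ⊆ X := by
  classical
  let F : Filter Ordinal.{u} :=
    { sets := {X | ∃ R, OneClub κ R ∧ R ⊆ X}
      univ_sets := ⟨_, oneClub_univ hκ, fun _ _ => trivial⟩
      sets_of_superset := by
        rintro X Y ⟨R, hR, h⟩ hXY
        exact ⟨R, hR, h.trans hXY⟩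
      inter_sets := by
        rintro X Y ⟨R, hR, h⟩ ⟨R', hR', h'⟩
        obtain ⟨R'', h1, h2⟩ := oneClub_inter hκ hR hR'
        exact ⟨R'', h1, fun l hl => ⟨h (h2 hl).1, h' (h2 hl).2⟩⟩ }
  have hF : ∀ p : Ordinal.{u} → Prop, (∀ᶠ l in F, p l) ↔ ∃ R, OneClub κ R ∧ ∀ l ∈ R, p l :=
    fun p => Iff.rfl
  refine ⟨F, ⟨?_, ?_, ?_, ?_⟩, ?_, ?_, fun X => Iff.rfl⟩
  · rw [Filter.neBot_iff]
    intro h2
    have h3 : ∀ᶠ l in F, False := by rw [h2]; exact Filter.eventually_bot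
    obtain ⟨R, hR, h4⟩ := (hF _).1 h3
    obtain ⟨α, _, h5, _⟩ := hR.2.1 κ.toZFSet (fun x hx => hx) ⟨fun x hx => hx, fun x hx => by
        obtain ⟨γ, hγ, rfl⟩ := Ordinal.mem_toZFSet_iff.1 hx
        exact ⟨_, tz_mem.2 (hκ.reg.succ_lt hγ), tz_mem.2 (Order.lt_succ γ)⟩, fun a ha _ _ => ha⟩
    exact h4 α h5
  · exact (hF _).2 ⟨_, oneClub_univ hκ, fun l hl => hl⟩
  · intro ξ hξ
    exact (hF _).2 ⟨_, oneClub_diag hκ (R := fun _ => {l | l < κ}) (fun _ _ => oneClub_univ hκ) hξ,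
      fun l hl => hl.2.1⟩
  · intro p hp
    simp only [hF] at hp ⊢
    choose! R hR1 hR2 using hp
    refine ⟨_, oneClub_diag hκ hR1 hκ.reg.pos, fun l hl ξ hξ => ?_⟩
    exact hR2 ξ (hξ.trans hl.1) l (hl.2.2 ξ hξ)
  · intro S _ hSκ _ hS
    have h1 := oneClub_RR hκ {1} (fun _ _ => S) (fun _ _ _ _ _ => hS)
    refine (hF _).2 ⟨_, h1, ?_⟩
    rintro l ⟨_, h2, h3⟩
    exact h3 1 (Ordinal.one_lt_omega0.trans h2.om_lt) rfl 0 zero_lt_one
  · have h1 := oneClub_RR hκ ∅ (fun _ _ => ∅) (fun _ _ h _ _ => absurd h (Set.notMem_empty _))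
    exact (hF _).2 ⟨_, h1, fun l hl => hl.2.1⟩

end Pool.Agent.H98.HD
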