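import Pool.Agent.H98.HD.WC

/-!
Reflection of stationary sets to regular cardinals below a weakly compact cardinal, with a filter which is
normal for at most `κ` many functions.
-/

set_option autoImplicit false
set_option linter.unusedVariables false

namespace Pool.Agent.H98.HD

open ZFSet Filter Cardinal Pool.Agent.H310.HD Gss969

universe u

variable {κ : Ordinal.{u}}

/-- a set of at most `κ` functions -/
def Small (κ : Ordinal.{u}) (𝓖 : Set (Ordinal.{u} → Ordinal.{u})) : Prop :=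
  ∃ (J : Type u) (G : J → Ordinal.{u} → Ordinal.{u}), #J ≤ κ.card ∧ 𝓖 ⊆ Set.range G

/-- The functions in `𝓖` are either regressive and constant, or not regressive, for almost all
arguments. -/
def NormalFor (D : Filter Ordinal.{u}) (𝓖 : Set (Ordinal.{u} → Ordinal.{u})) : Prop :=
  ∀ g ∈ 𝓖, (∃ ξ, ∀ᶠ l in D, g l = ξ ∧ g l < l) ∨ ∀ᶠ l in D, ¬ g l < l

theorem NormalFor.mono {D : Filter Ordinal.{u}} {𝓖 𝓖' : Set (Ordinal.{u} → Ordinal.{u})}
    (h : NormalFor D 𝓖) (hs : 𝓖' ⊆ 𝓖) : NormalFor D 𝓖' := fun g hg => h g (hs hg)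

theorem Small.union {𝓖 𝓖' : Set (Ordinal.{u} → Ordinal.{u})} (hκ : ℵ₀ ≤ κ.card) (h : Small κ 𝓖)
    (h' : Small κ 𝓖') : Small κ (𝓖 ∪ 𝓖') := by
  obtain ⟨J, G, hJ, hG⟩ := h
  obtain ⟨J', G', hJ', hG'⟩ := h'
  refine ⟨J ⊕ J', Sum.elim G G', ?_, ?_⟩
  · rw [Cardinal.mk_sum, Cardinal.lift_id, Cardinal.lift_id]
    exact Cardinal.add_le_of_le hκ hJ hJ'
  · rintro g (hg | hg)
    · obtain ⟨j, rfl⟩ := hG hg
      exact ⟨Sum.inl j, rfl⟩
    · obtain ⟨j, rfl⟩ := hG' hg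
      exact ⟨Sum.inr j, rfl⟩

theorem Small.iUnion {𝓖 : Ordinal.{u} → Set (Ordinal.{u} → Ordinal.{u})} (hκ : ℵ₀ ≤ κ.card)
    (h : ∀ β < κ, Small κ (𝓖 β)) : Small κ (⋃ β, ⋃ _ : β < κ, 𝓖 β) := by
  choose! J G hJ hG using h
  refine ⟨Σ t : κ.ToType, J (Ordinal.ToType.mk.symm t).1, fun p => G _ p.2, ?_, ?_⟩
  · rw [Cardinal.mk_sigma]
    refine (Cardinal.sum_le_sum _ (fun _ => κ.card) fun t => hJ _ (Ordinal.ToType.mk.symm t).2).trans ?_
    rw [Cardinal.sum_const', Cardinal.mk_toType]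
    exact (Cardinal.mul_eq_self hκ).le
  · intro g hg
    simp only [Set.mem_iUnion] at hg
    obtain ⟨β, hβ, hg⟩ := hg
    obtain ⟨j, hj⟩ := hG β hβ hg
    have e : (Ordinal.ToType.mk.symm (Ordinal.ToType.mk ⟨β, hβ⟩) : Set.Iio κ).1 = β := by
      rw [OrderIso.symm_apply_apply]
    have hgen : ∀ (γ : Ordinal.{u}) (hγ : γ = β), ∃ j : J γ, G γ j = g := by
      rintro γ rfl
      exact ⟨j, hj⟩
    obtain ⟨j', hj'⟩ := hgen _ e
    exact ⟨⟨Ordinal.ToType.mk ⟨β, hβ⟩, j'⟩, hj'⟩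

theorem Small.single (hκ : ℵ₀ ≤ κ.card) (g : Ordinal.{u} → Ordinal.{u}) : Small κ {g} := by
  refine ⟨PUnit, fun _ => g, ?_, ?_⟩
  · rw [Cardinal.mk_punit]
    exact Cardinal.one_le_aleph0.trans hκ
  · rintro _ rfl
    exact ⟨PUnit.unit, rfl⟩

theorem exists_normalFor (hκ : WeaklyCompact κ) {𝓖 : Set (Ordinal.{u} → Ordinal.{u})}
    (h : Small κ 𝓖) : ∃ D : Filter Ordinal.{u}, CompleteOn κ D ∧ NormalFor D 𝓖 := by
  obtain ⟨J, G, hJ, hG⟩ := h
  obtain ⟨D, hD, h1, h2⟩ := exists_normal hκ J hJ G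
  refine ⟨D, hD, fun g hg => ?_⟩
  obtain ⟨j, rfl⟩ := hG hg
  rcases h1 j with h | h
  · obtain ⟨ξ, hξ⟩ := h2 j h
    exact Or.inl ⟨ξ, hξ.and h⟩
  · exact Or.inr h

/-! ## Closed unbounded sets -/

open Classical in
/-- for `l ∉ C`, a bound of `C ∩ l` -/
noncomputable def gC (C : ZFSet.{u}) (l : Ordinal.{u}) : Ordinal.{u} :=
  if h : ∃ ζ < l, ∀ c < l, c.toZFSet ∈ C → c ≤ ζ then h.choose else l

theorem club_ae {D : Filter Ordinal.{u}} (hD : CompleteOn κ D) {C : ZFSet.{u}}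
    (hC : Club C κ.toZFSet) (hn : NormalFor D {gC C}) : ∀ᶠ l in D, l.toZFSet ∈ C := by
  have := hD.ne
  rcases hn _ rfl with ⟨ζ, h⟩ | h
  · exfalso
    obtain ⟨l, ⟨h1, h2⟩, h3⟩ := (h.and hD.conc).exists
    have hζ : ζ < κ := by rw [← h1]; exact h2.trans h3
    obtain ⟨c, hc, hc'⟩ := hC.2.1 _ (tz_mem.2 hζ)
    obtain ⟨c, hcκ, rfl⟩ := Ordinal.mem_toZFSet_iff.1 (hC.1 hc)
    obtain ⟨l, ⟨h4, h5⟩, h6⟩ := (h.and (hD.tail c hcκ)).exists
    have h7 : ∃ ζ < l, ∀ c < l, c.toZFSet ∈ C → c ≤ ζ := by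
      by_contra hcon
      rw [gC, dif_neg hcon] at h5
      exact lt_irrefl _ h5
    have h8 : gC C l = h7.choose := by rw [gC, dif_pos h7]
    have h9 := h7.choose_spec.2 c h6 hc
    rw [← h8, h4] at h9
    exact absurd (tz_mem.1 hc') (not_lt.2 h9)
  · by_cases hκ0 : κ = 0
    · obtain ⟨l, hl⟩ := hD.conc.exists
      rw [hκ0] at hl
      exact absurd hl not_lt_zero
    · filter_upwards [h, hD.conc, hD.tail 0 (pos_iff_ne_zero.2 hκ0)] with l h1 h2 h3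
      refine hC.2.2 _ (tz_mem.2 h2) ⟨_, tz_mem.2 h3, rfl⟩ fun x hx => ?_
      obtain ⟨ξ, hξ, rfl⟩ := Ordinal.mem_toZFSet_iff.1 hx
      by_contra hcon
      push Not at hcon
      have h7 : ∃ ζ < l, ∀ c < l, c.toZFSet ∈ C → c ≤ ζ := by
        refine ⟨ξ, hξ, fun c hc hcC => ?_⟩
        by_contra h8
        push Not at h8
        exact hcon _ hcC (tz_mem.2 hc) (tz_mem.2 h8)
      refine h1 ?_
      rw [gC, dif_pos h7]
      exact h7.choose_spec.1

/-! ## Regular cardinals -/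

/-- `f` is a cofinal function from `a` to `l` -/
def Sg (l a : Ordinal.{u}) (f : Ordinal.{u} → Ordinal.{u}) : Prop :=
  a < l ∧ (∀ i < a, f i < l) ∧ ∀ b < l, ∃ i < a, b ≤ f i

theorem exists_Sg {l : Ordinal.{u}} (hl : Ordinal.omega0 < l) (h : ¬ RegUnc l.toZFSet) :
    ∃ a f, Sg l a f := by
  unfold RegUnc at h
  push Not at h
  obtain ⟨a, ha, f, hf, h3⟩ := h (isOrdinal_toZFSet l) (by unfold om; exact tz_mem.2 hl)
  obtain ⟨α, hα, rfl⟩ := Ordinal.mem_toZFSet_iff.1 ha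
  refine ⟨α, fun i => rank (app f i.toZFSet), hα, fun i hi => ?_, fun b hb => ?_⟩
  · obtain ⟨β, hβ, hβ'⟩ := Ordinal.mem_toZFSet_iff.1 (app_mem hf (tz_mem.2 hi))
    show rank (app f i.toZFSet) < l
    rw [← hβ', Ordinal.rank_toZFSet]
    exact hβ
  · obtain ⟨x, hx, y, hy, hxy, hyb⟩ := h3 b.toZFSet (tz_mem.2 hb)
    obtain ⟨i, hi, rfl⟩ := Ordinal.mem_toZFSet_iff.1 hx
    refine ⟨i, hi, ?_⟩
    simp only
    rw [(app_iff hf hx).1 hxy]
    obtain ⟨β, hβ, rfl⟩ := Ordinal.mem_toZFSet_iff.1 hy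
    rw [Ordinal.rank_toZFSet]
    by_contra h4
    push Not at h4
    exact hyb (tz_mem.2 h4)

open Classical in
noncomputable def gA (l : Ordinal.{u}) : Ordinal.{u} := if h : ∃ a f, Sg l a f then h.choose else l

open Classical in
noncomputable def gF (i l : Ordinal.{u}) : Ordinal.{u} :=
  if h : ∃ a f, Sg l a f then (if i < h.choose then h.choose_spec.choose i else l) else l

theorem card_lt_of_reg (hreg : RegUnc κ.toZFSet) {α : Ordinal.{u}} (hα : α < κ) :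
    α.card < κ.card := by
  classical
  by_contra hcon
  push Not at hcon
  obtain ⟨e⟩ : Nonempty (κ.ToType ↪ α.ToType) := by
    rw [← Cardinal.le_def, Cardinal.mk_toType, Cardinal.mk_toType]
    exact hcon
  obtain ⟨c, hc, h6⟩ := hreg.bdd hα (fun i => if h : ∃ (hi : i < α) (t : κ.ToType),
    e t = Ordinal.ToType.mk ⟨i, hi⟩ then (Ordinal.ToType.mk.symm h.choose_spec.choose).1 else 0)
    (by
      intro i hi
      show (if h : ∃ (hi : i < α) (t : κ.ToType), e t = Ordinal.ToType.mk ⟨i, hi⟩ then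
        (Ordinal.ToType.mk.symm h.choose_spec.choose).1 else 0) < κ
      split_ifs with h7
      · exact (Ordinal.ToType.mk.symm h7.choose_spec.choose).2
      · exact hreg.pos)
  have h7 := h6 (Ordinal.ToType.mk.symm (e (Ordinal.ToType.mk ⟨c, hc⟩))).1
    (Ordinal.ToType.mk.symm (e (Ordinal.ToType.mk ⟨c, hc⟩))).2
  have h8 : ∃ (hi : (Ordinal.ToType.mk.symm (e (Ordinal.ToType.mk ⟨c, hc⟩))).1 < α)
      (t : κ.ToType), e t = Ordinal.ToType.mk
        ⟨(Ordinal.ToType.mk.symm (e (Ordinal.ToType.mk ⟨c, hc⟩))).1, hi⟩ := by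
    refine ⟨(Ordinal.ToType.mk.symm (e (Ordinal.ToType.mk ⟨c, hc⟩))).2,
      Ordinal.ToType.mk ⟨c, hc⟩, ?_⟩
    exact (Ordinal.ToType.mk.apply_symm_apply _).symm
  rw [dif_pos h8] at h7
  have h9 := h8.choose_spec.choose_spec
  have h10 : e h8.choose_spec.choose = e (Ordinal.ToType.mk ⟨c, hc⟩) :=
    h9.trans (Ordinal.ToType.mk.apply_symm_apply _)
  rw [e.injective h10, OrderIso.symm_apply_apply] at h7
  exact lt_irrefl _ h7

theorem reg_ae (hκ : Ordinal.omega0 < κ) (hreg : RegUnc κ.toZFSet) {D : Filter Ordinal.{u}}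
    (hD : CompleteOn κ D) (hn : NormalFor D ({gA} ∪ ⋃ i, ⋃ _ : i < κ, {gF i})) :
    ∀ᶠ l in D, RegUnc l.toZFSet := by
  have := hD.ne
  rcases hn gA (Or.inl rfl) with ⟨α, h⟩ | h
  · exfalso
    have hS : ∀ᶠ l in D, ∃ f, Sg l α f ∧ ∀ i < α, gF i l = f i := by
      filter_upwards [h] with l hl
      have h7 : ∃ a f, Sg l a f := by
        by_contra hcon
        rw [gA, dif_neg hcon] at hl
        exact lt_irrefl _ hl.2
      have h8 : gA l = h7.choose := by rw [gA, dif_pos h7]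
      have h9 : ∃ f, Sg l (gA l) f ∧ ∀ i < gA l, gF i l = f i := by
        rw [h8]
        refine ⟨h7.choose_spec.choose, h7.choose_spec.choose_spec, fun i hi => ?_⟩
        rw [gF, dif_pos h7, if_pos hi]
      rwa [hl.1] at h9
    have hακ : α < κ := by
      obtain ⟨l, ⟨f, h1, h2⟩, h3⟩ := (hS.and hD.conc).exists
      exact h1.1.trans h3
    have h3 : ∀ i < α, ∃ ξ < κ, ∀ᶠ l in D, gF i l = ξ := by
      intro i hi
      rcases hn (gF i) (Or.inr (by simp only [Set.mem_iUnion]; exact ⟨i, hi.trans hακ, rfl⟩)) with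
        ⟨ξ, h4⟩ | h4
      · obtain ⟨l, h5, h6⟩ := (h4.and hD.conc).exists
        refine ⟨ξ, ?_, h4.mono fun l hl => hl.1⟩
        rw [← h5.1]
        exact h5.2.trans h6
      · exfalso
        obtain ⟨l, ⟨f, h1, h2⟩, h3⟩ := (hS.and h4).exists
        refine h3 ?_
        rw [h2 i hi]
        exact h1.2.1 i hi
    choose! ξ hξ1 hξ2 using h3
    obtain ⟨b, hb, h4⟩ := hreg.bdd hακ ξ hξ1
    have h5 : ∀ᶠ l in D, ∀ t : α.ToType, gF (Ordinal.ToType.mk.symm t).1 l =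
        ξ (Ordinal.ToType.mk.symm t).1 := by
      refine hD.complete _ ?_ _ fun t => hξ2 _ (Ordinal.ToType.mk.symm t).2
      rw [Cardinal.mk_toType]
      exact card_lt_of_reg hreg hακ
    obtain ⟨l, ⟨f, h6, h7⟩, h8, h9⟩ := (hS.and (h5.and (hD.tail b hb))).exists
    obtain ⟨i, hi, h10⟩ := h6.2.2 b h9
    have h11 := h8 (Ordinal.ToType.mk ⟨i, hi⟩)
    rw [OrderIso.symm_apply_apply] at h11
    rw [← h7 i hi, h11] at h10
    exact absurd h10 (not_le.2 (h4 i hi))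
  · filter_upwards [h, hD.tail _ hκ] with l h1 h2
    by_contra hcon
    have h7 := exists_Sg h2 hcon
    refine h1 ?_
    rw [gA, dif_pos h7]
    exact h7.choose_spec.choose_spec.1

/-! ## Stationary sets -/

/-- `C` is closed and unbounded in `l` and disjoint from `S` -/
def Avoid (S : ZFSet.{u}) (l : Ordinal.{u}) (C : ZFSet.{u}) : Prop :=
  C ⊆ l.toZFSet ∧ Club C l.toZFSet ∧ ∀ x ∈ S, x ∈ l.toZFSet → ¬ x ∈ C

theorem exists_avoid {S : ZFSet.{u}} {l : Ordinal.{u}} (h : ¬ Stat (S ∩ l.toZFSet) l.toZFSet) :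
    ∃ C, Avoid S l C := by
  unfold Stat at h
  push Not at h
  obtain ⟨C, hC1, hC2, hC3⟩ := h
  exact ⟨C, hC1, hC2, fun x hx hxl => hC3 x (mem_inter.2 ⟨hx, hxl⟩)⟩

open Classical in
/-- the next element above `β` of a closed unbounded subset of `l` disjoint from `S` -/
noncomputable def gN (S : ZFSet.{u}) (β l : Ordinal.{u}) : Ordinal.{u} :=
  if h : ∃ C, Avoid S l C then
    (if h' : ∃ c < l, β < c ∧ c.toZFSet ∈ h.choose then h'.choose else l) else l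

open Classical in
/-- `0` if `S` is not stationary in `l` -/
noncomputable def gS (S : ZFSet.{u}) (l : Ordinal.{u}) : Ordinal.{u} :=
  if Stat (S ∩ l.toZFSet) l.toZFSet then l else 0

theorem stat_ae {D : Filter Ordinal.{u}} (hreg : RegUnc κ.toZFSet) (hD : CompleteOn κ D)
    {S : ZFSet.{u}} (hS : Stat S κ.toZFSet) (hn : NormalFor D ({gS S} ∪ ⋃ i, ⋃ _ : i < κ, {gN S i})) :
    ∀ᶠ l in D, Stat (S ∩ l.toZFSet) l.toZFSet := by
  classical
  have := hD.ne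
  rcases hn (gS S) (Or.inl rfl) with ⟨ζ, h⟩ | h
  swap
  · filter_upwards [h, hD.tail 0 hreg.pos] with l h1 h2
    by_contra hcon
    refine h1 ?_
    rw [gS, if_neg hcon]
    exact h2
  exfalso
  have h1 : ∀ᶠ l in D, ∃ C : ZFSet.{u}, Avoid S l C := by
    filter_upwards [h] with l hl
    refine exists_avoid fun hcon => ?_
    rw [gS, if_pos hcon] at hl
    exact lt_irrefl _ hl.2
  let C : Ordinal.{u} → ZFSet.{u} := fun l => if h : ∃ C, Avoid S l C then h.choose else ∅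
  have hC : ∀ l, (∃ C, Avoid S l C) → Avoid S l (C l) := by
    intro l hl
    have h2 : C l = hl.choose := dif_pos hl
    rw [h2]
    exact hl.choose_spec
  have hgN : ∀ l, (∃ C, Avoid S l C) → ∀ β < l, gN S β l < l ∧ β < gN S β l ∧
      (gN S β l).toZFSet ∈ C l := by
    intro l hl β hβ
    have h2 : C l = hl.choose := dif_pos hl
    have h3 : ∃ c < l, β < c ∧ c.toZFSet ∈ hl.choose := by
      rw [← h2]
      obtain ⟨c, hc, hc'⟩ := (hC l hl).2.1.2.1 _ (tz_mem.2 hβ)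
      obtain ⟨γ, hγ, rfl⟩ := Ordinal.mem_toZFSet_iff.1 ((hC l hl).1 hc)
      exact ⟨γ, hγ, tz_mem.1 hc', hc⟩
    have h4 : gN S β l = h3.choose := by
      rw [gN, dif_pos hl, dif_pos h3]
    rw [h4, h2]
    exact h3.choose_spec
  obtain ⟨E, hE⟩ : ∃ E : ZFSet.{u}, E = ZFSet.sep (fun x => ∀ᶠ l in D, x ∈ C l) κ.toZFSet := ⟨_, rfl⟩
  have hE' : ∀ x, x ∈ E ↔ x ∈ κ.toZFSet ∧ ∀ᶠ l in D, x ∈ C l := by
    intro x; rw [hE, mem_sep]
  have hclub : Club E κ.toZFSet := by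
    refine ⟨fun x hx => ((hE' x).1 hx).1, ?_, ?_⟩
    · intro x hx
      obtain ⟨β, hβ, rfl⟩ := Ordinal.mem_toZFSet_iff.1 hx
      have h2 : ∀ᶠ l in D, gN S β l < l ∧ β < gN S β l ∧ (gN S β l).toZFSet ∈ C l := by
        filter_upwards [h1, hD.tail β hβ] with l h2 h3
        exact hgN l h2 β h3
      rcases hn (gN S β) (Or.inr (by simp only [Set.mem_iUnion]; exact ⟨β, hβ, rfl⟩)) with
        ⟨γ, h3⟩ | h3
      · obtain ⟨l, h4, h5, h6⟩ := (h3.and (h2.and hD.conc)).exists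
        have hγκ : γ < κ := by rw [← h4.1]; exact h4.2.trans h6
        refine ⟨γ.toZFSet, (hE' _).2 ⟨tz_mem.2 hγκ, ?_⟩, ?_⟩
        · filter_upwards [h2, h3] with l h7 h8
          rw [← h8.1]
          exact h7.2.2
        · rw [← h4.1]
          exact tz_mem.2 h5.2.1
      · obtain ⟨l, h4, h5⟩ := (h2.and h3).exists
        exact absurd h4.1 h5
    · intro a ha hne hlim
      obtain ⟨α, hα, rfl⟩ := Ordinal.mem_toZFSet_iff.1 ha
      refine (hE' _).2 ⟨ha, ?_⟩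
      have h2 : ∀ ξ < α, ∃ c < α, ξ < c ∧ ∀ᶠ l in D, c.toZFSet ∈ C l := by
        intro ξ hξ
        obtain ⟨c, hc1, hc2, hc3⟩ := hlim _ (tz_mem.2 hξ)
        obtain ⟨γ, hγ, rfl⟩ := Ordinal.mem_toZFSet_iff.1 hc2
        exact ⟨γ, hγ, tz_mem.1 hc3, ((hE' _).1 hc1).2⟩
      choose! c hc1 hc2 hc3 using h2
      have h3 : ∀ᶠ l in D, ∀ t : α.ToType, (c (Ordinal.ToType.mk.symm t).1).toZFSet ∈ C l := by
        refine hD.complete _ ?_ _ fun t => hc3 _ (Ordinal.ToType.mk.symm t).2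
        rw [Cardinal.mk_toType]
        exact card_lt_of_reg hreg hα
      filter_upwards [h3, h1, hD.tail α hα] with l h3 h4 h5
      refine (hC l h4).2.1.2.2 _ (tz_mem.2 h5) hne fun x hx => ?_
      obtain ⟨ξ, hξ, rfl⟩ := Ordinal.mem_toZFSet_iff.1 hx
      have h6 := h3 (Ordinal.ToType.mk ⟨ξ, hξ⟩)
      rw [OrderIso.symm_apply_apply] at h6
      exact ⟨(c ξ).toZFSet, h6, tz_mem.2 (hc1 ξ hξ), tz_mem.2 (hc2 ξ hξ)⟩
  obtain ⟨x, hx, hx'⟩ := hS E hclub.1 hclub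
  obtain ⟨l, h2, h3⟩ := ((((hE' x).1 hx').2).and h1).exists
  exact (hC l h3).2.2 x hx ((hC l h3).1 h2) h2

end Pool.Agent.H98.HD
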