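import Pool.Agent.H98.HD.Refl

/-!
Reflection of partitions of `cof(ω) ∩ κ` which belong to `HOD`.
-/

set_option autoImplicit false
set_option linter.unusedVariables false

namespace Pool.Agent.H98.HD

open ZFSet Filter Cardinal Pool.Agent.H310.HD Gss969

universe u

variable {κ : Ordinal.{u}}

/-- If all pieces of a partition remain stationary in `l` then the restriction is a partition. -/
theorem isPart_restr {μ l : Ordinal.{u}} (hl : l < κ) {g : ZFSet.{u}}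
    (hg : IsPart μ.toZFSet κ.toZFSet g)
    (h5 : ∀ i < μ, Stat (app g i.toZFSet ∩ l.toZFSet) l.toZFSet) :
    IsPart μ.toZFSet l.toZFSet (restr g μ.toZFSet l.toZFSet) := by
  obtain ⟨h1, h2, h3, h4⟩ := hg
  unfold restr
  refine ⟨isFunc_gr fun i hi => ?_, ?_, ?_, ?_⟩
  · rw [mem_powerset]
    exact fun z hz => (mem_inter.1 hz).2
  · intro i hi S hS hiS
    obtain ⟨i, hi', rfl⟩ := Ordinal.mem_toZFSet_iff.1 hi
    rw [pair_mem_gr] at hiS
    rw [← hiS.2]
    exact h5 i hi'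
  · rintro i hi i' hi' S hS S' hS' hiS hiS' ⟨a, ha, ha'⟩
    rw [pair_mem_gr] at hiS hiS'
    rw [← hiS.2, mem_inter] at ha
    rw [← hiS'.2, mem_inter] at ha'
    exact h3 i hi i' hi' _ (mem_powerset.1 (app_mem h1 hi)) _ (mem_powerset.1 (app_mem h1 hi'))
      (app_spec h1 hi) (app_spec h1 hi') ⟨a, ha.1, ha'.1⟩
  · intro a ha
    obtain ⟨α, hα, rfl⟩ := Ordinal.mem_toZFSet_iff.1 ha
    rw [h4 _ (tz_mem.2 (hα.trans hl))]
    constructor
    · rintro ⟨i, hi, S, hS, hiS, haS⟩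
      refine ⟨i, hi, S ∩ l.toZFSet, fun z hz => (mem_inter.1 hz).2, ?_, mem_inter.2 ⟨haS, ha⟩⟩
      rw [pair_mem_gr]
      exact ⟨hi, by rw [(app_iff h1 hi).1 hiS]⟩
    · rintro ⟨i, hi, S, hS, hiS, haS⟩
      rw [pair_mem_gr] at hiS
      rw [← hiS.2, mem_inter] at haS
      exact ⟨i, hi, _, mem_powerset.1 (app_mem h1 hi), app_spec h1 hi, haS.1⟩

/-! ## Normal filters -/

/-- `F` is a proper normal filter on `κ`. -/
structure NormalFilter (κ : Ordinal.{u}) (F : Filter Ordinal.{u}) : Prop where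
  ne : F.NeBot
  conc : ∀ᶠ l in F, l < κ
  tail : ∀ ξ < κ, ∀ᶠ l in F, ξ < l
  diag : ∀ p : Ordinal.{u} → Ordinal.{u} → Prop, (∀ ξ < κ, ∀ᶠ l in F, p ξ l) →
    ∀ᶠ l in F, ∀ ξ < l, p ξ l

/-- There is `k < l` with `(2 ^ k)^HOD < l` such that no sequence of length `k` in `HOD` is a partition of
`cof(ω) ∩ l` into stationary subsets of `l`. Here `l` need not be regular. -/
def Unsplit (b : Bool) (l : Ordinal.{u}) : Prop :=
  ∃ k ∈ l.toZFSet, Index b k ∧ FewSub HOD k l.toZFSet ∧ ¬ ∃ g, HOD g ∧ IsPart k l.toZFSet g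

/-- Every stationary subset of `cof(ω) ∩ κ` in `HOD` is stationary in `l`, for almost all `l`. -/
def Reflects (κ : Ordinal.{u}) (F : Filter Ordinal.{u}) : Prop :=
  ∀ S, HOD S → S ⊆ κ.toZFSet → (∀ x ∈ S, CofOm x) → Stat S κ.toZFSet →
    ∀ᶠ l in F, Stat (S ∩ l.toZFSet) l.toZFSet

theorem strMeas_of_unsplit (b : Bool) (hκ : RegUnc κ.toZFSet) {F : Filter Ordinal.{u}}
    (hF : NormalFilter κ F) (hR : Reflects κ F) (h : ∃ᶠ l in F, Unsplit b l) : StrMeas b κ := by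
  by_contra hn
  have hn' : NonSM (Index b) HOD κ.toZFSet := (notStrMeas_iff b κ).1 ⟨hκ, hn⟩
  have h1 : ∀ μ < κ, ∀ᶠ l in F, ¬ (Index b μ.toZFSet ∧ FewSub HOD μ.toZFSet l.toZFSet ∧
      ¬ ∃ g, HOD g ∧ IsPart μ.toZFSet l.toZFSet g) := by
    intro μ hμ
    by_cases hix : Index b μ.toZFSet
    swap
    · exact Eventually.of_forall fun l h2 => hix h2.1
    by_cases hfew : FewSub HOD μ.toZFSet κ.toZFSet
    swap
    · filter_upwards [hF.conc] with l hl h2
      obtain ⟨_, ⟨n, hn, g, hg⟩, _⟩ := h2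
      obtain ⟨ν, hν, rfl⟩ := Ordinal.mem_toZFSet_iff.1 hn
      exact hfew ⟨_, tz_mem.2 (hν.trans hl), g, hg⟩
    obtain ⟨g, hg, hp⟩ := hn'.2 _ (tz_mem.2 hμ) hix hfew
    have hp' := hp
    obtain ⟨p1, p2, p3, p4⟩ := hp'
    have h2 : ∀ i < κ, ∀ᶠ l in F, i < μ → Stat (app g i.toZFSet ∩ l.toZFSet) l.toZFSet := by
      intro i _
      by_cases hi : i < μ
      swap
      · exact Eventually.of_forall fun l h => absurd h hi
      have hi' := tz_mem.2 hi
      have hS := mem_powerset.1 (app_mem p1 hi')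
      refine (hR (app g i.toZFSet) (hg.mem (app_spec p1 hi')).of_pair.2 hS ?_ ?_).mono
        fun l hl _ => hl
      · intro x hx
        exact (p4 x (hS hx)).2 ⟨_, hi', _, hS, app_spec p1 hi', hx⟩
      · exact p2 _ hi' _ hS (app_spec p1 hi')
    filter_upwards [hF.diag _ h2, hF.tail μ hμ, hF.conc] with l h3 h4 h5
    rintro ⟨_, _, h6⟩
    exact h6 ⟨_, HOD_restr hg p1, isPart_restr h5 hp fun i hi => h3 i (hi.trans h4) hi⟩
  refine h ?_
  filter_upwards [hF.diag _ h1] with l h2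
  rintro ⟨k, hk, h3⟩
  obtain ⟨μ, hμ, rfl⟩ := Ordinal.mem_toZFSet_iff.1 hk
  exact h2 μ hμ h3

/-! ## Weakly compact cardinals -/

theorem fewSub (hκ : WeaklyCompact κ) (P : ZFSet.{u} → Prop) {μ : Ordinal.{u}} (hμ : μ < κ) :
    FewSub P μ.toZFSet κ.toZFSet := by
  classical
  have h1 : ((2 : Cardinal.{u}) ^ μ.card).ord < κ :=
    lt_of_lt_of_le (Cardinal.ord_lt_ord.2 (hκ.lim μ hμ)) (Cardinal.ord_card_le κ)
  have h2 : #(Set μ.ToType) = #(((2 : Cardinal.{u}) ^ μ.card).ord.ToType) := by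
    rw [Cardinal.mk_toType, Cardinal.card_ord, Cardinal.mk_set, Cardinal.mk_toType]
  obtain ⟨e⟩ := Cardinal.eq.1 h2
  let B : Ordinal.{u} → ZFSet.{u} := fun i => ZFSet.sep (fun y => ∃ (hi : i < ((2 : Cardinal.{u}) ^
    μ.card).ord) (t : μ.ToType), (Ordinal.ToType.mk.symm t).1.toZFSet = y ∧
      t ∈ e.symm (Ordinal.ToType.mk ⟨i, hi⟩)) μ.toZFSet
  refine ⟨_, tz_mem.2 h1, gr _ (fun x => B (rank x)), isFunc_gr fun x _ => ?_, fun X hX _ => ?_⟩
  · rw [mem_powerset]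
    exact fun z hz => (mem_sep.1 hz).1
  · let i := (Ordinal.ToType.mk.symm (e {t | (Ordinal.ToType.mk.symm t).1.toZFSet ∈ X}))
    refine ⟨i.1.toZFSet, tz_mem.2 i.2, ?_⟩
    rw [pair_mem_gr, Ordinal.rank_toZFSet]
    refine ⟨tz_mem.2 i.2, ?_⟩
    have h3 : e.symm (Ordinal.ToType.mk ⟨i.1, i.2⟩) =
        {t | (Ordinal.ToType.mk.symm t).1.toZFSet ∈ X} := by
      have : Ordinal.ToType.mk ⟨i.1, i.2⟩ = e {t | (Ordinal.ToType.mk.symm t).1.toZFSet ∈ X} :=
        Ordinal.ToType.mk.apply_symm_apply _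
      rw [this, Equiv.symm_apply_apply]
    ext y
    simp only [B, mem_sep]
    constructor
    · rintro ⟨hy, hi, t, rfl, ht⟩
      rw [h3] at ht
      exact ht
    · intro hy
      refine ⟨hX hy, i.2, ?_⟩
      obtain ⟨β, hβ, rfl⟩ := Ordinal.mem_toZFSet_iff.1 (hX hy)
      refine ⟨Ordinal.ToType.mk ⟨β, hβ⟩, ?_, ?_⟩
      · rw [OrderIso.symm_apply_apply]
      · rw [h3, Set.mem_ofPred_eq, OrderIso.symm_apply_apply]
        exact hy

/-- The set `R` is a `1`-club in `κ`: it is stationary in `κ`, and contains every regular uncountable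
`l < κ` in which it is stationary. -/
def OneClub (κ : Ordinal.{u}) (R : Set Ordinal.{u}) : Prop :=
  (∀ l ∈ R, l < κ) ∧ StatL R κ ∧ ∀ l < κ, RegUnc l.toZFSet → StatL R l → l ∈ R

/-- `l` is regular and uncountable, and all sets `S μ i`, `i < μ < l`, `μ ∈ K`, are stationary in `l`. -/
def RR (κ : Ordinal.{u}) (K : Set Ordinal.{u}) (S : Ordinal.{u} → Ordinal.{u} → ZFSet.{u}) :
    Set Ordinal.{u} :=
  {l | l < κ ∧ RegUnc l.toZFSet ∧ ∀ μ < l, μ ∈ K → ∀ i < μ, Stat (S μ i ∩ l.toZFSet) l.toZFSet}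

theorem oneClub_RR (hκ : WeaklyCompact κ) (K : Set Ordinal.{u})
    (S : Ordinal.{u} → Ordinal.{u} → ZFSet.{u})
    (hS : ∀ μ < κ, μ ∈ K → ∀ i < μ, Stat (S μ i) κ.toZFSet) : OneClub κ (RR κ K S) := by
  classical
  have hinf : ℵ₀ ≤ κ.card := by
    have := Ordinal.card_le_card hκ.reg.om_lt.le
    rwa [Ordinal.card_omega0] at this
  refine ⟨fun l hl => hl.1, ?_, ?_⟩
  · intro C hC1 hC2
    let bad : Ordinal.{u} → Prop := fun l => ∃ μ < l, μ ∈ K ∧ ∃ i < μ,
      ¬ Stat (S μ i ∩ l.toZFSet) l.toZFSet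
    let gM : Ordinal.{u} → Ordinal.{u} := fun l => if h : bad l then h.choose else l
    let gI : Ordinal.{u} → Ordinal.{u} := fun l => if h : bad l then h.choose_spec.2.2.choose else l
    have hs : Small κ ({gC C} ∪ (({gA} ∪ ⋃ i, ⋃ _ : i < κ, {gF i}) ∪ (({gM} ∪ {gI}) ∪
        ⋃ μ, ⋃ _ : μ < κ, ⋃ i, ⋃ _ : i < κ,
          ({gS (S μ i)} ∪ ⋃ j, ⋃ _ : j < κ, {gN (S μ i) j})))) := by
      refine (Small.single hinf _).union hinf (Small.union hinf ((Small.single hinf _).union hinf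
        (Small.iUnion hinf fun i _ => Small.single hinf _)) (Small.union hinf
          ((Small.single hinf _).union hinf (Small.single hinf _)) (Small.iUnion hinf fun μ _ =>
            Small.iUnion hinf fun i _ => (Small.single hinf _).union hinf
              (Small.iUnion hinf fun j _ => Small.single hinf _))))
    obtain ⟨D, hD, hn⟩ := exists_normalFor hκ hs
    have := hD.ne
    have hc := club_ae hD hC2 (hn.mono Set.subset_union_left)
    have hr := reg_ae hκ.reg.om_lt hκ.reg hD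
      (hn.mono (Set.subset_union_left.trans Set.subset_union_right))
    have hst : ∀ μ < κ, μ ∈ K → ∀ i < μ, ∀ᶠ l in D, Stat (S μ i ∩ l.toZFSet) l.toZFSet := by
      intro μ hμ hK i hi
      refine stat_ae hκ.reg hD (hS μ hμ hK i hi) (hn.mono ?_)
      refine Set.Subset.trans ?_ (Set.subset_union_right.trans
        (Set.subset_union_right.trans Set.subset_union_right))
      intro g hg
      simp only [Set.mem_iUnion]
      exact ⟨μ, hμ, i, hi.trans hμ, hg⟩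
    have hgood : ∀ᶠ l in D, ¬ bad l := by
      rcases hn gM (Or.inr (Or.inr (Or.inl (Or.inl rfl)))) with ⟨μ, h1⟩ | h1
      · exfalso
        have h2 : ∀ᶠ l in D, bad l := by
          filter_upwards [h1] with l hl
          by_contra hcon
          simp only [gM, dif_neg hcon] at hl
          exact lt_irrefl _ hl.2
        rcases hn gI (Or.inr (Or.inr (Or.inl (Or.inr rfl)))) with ⟨i, h3⟩ | h3
        · have h4 : ∀ᶠ l in D, μ < l ∧ μ ∈ K ∧ i < μ ∧ ¬ Stat (S μ i ∩ l.toZFSet) l.toZFSet := by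
            filter_upwards [h1, h2, h3] with l h5 h6 h7
            have e1 : μ = h6.choose := by
              rw [← h5.1]
              simp only [gM, dif_pos h6]
            have e2 : i = h6.choose_spec.2.2.choose := by
              rw [← h7.1]
              simp only [gI, dif_pos h6]
            rw [e2]
            have h8 := h6.choose_spec.2.2.choose_spec
            have h9 := h6.choose_spec.1
            have h10 := h6.choose_spec.2.1
            rw [← e1] at h9 h10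
            refine ⟨h9, h10, ?_, ?_⟩
            · exact e1 ▸ h8.1
            · exact e1 ▸ h8.2
          obtain ⟨l, h5, h6⟩ := (h4.and hD.conc).exists
          have h7 := hst μ (h5.1.trans h6) h5.2.1 i h5.2.2.1
          obtain ⟨l, h8, h9⟩ := (h7.and h4).exists
          exact h9.2.2.2 h8
        · obtain ⟨l, h4, h5⟩ := (h3.and h2).exists
          refine h4 ?_
          have e2 : gI l = h5.choose_spec.2.2.choose := by simp only [gI, dif_pos h5]
          rw [e2]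
          exact h5.choose_spec.2.2.choose_spec.1.trans h5.choose_spec.1
      · filter_upwards [h1] with l h2 hb
        refine h2 ?_
        have e1 : gM l = hb.choose := by simp only [gM, dif_pos hb]
        rw [e1]
        exact hb.choose_spec.1
    obtain ⟨l, h1, h2, h3, h4⟩ := (hc.and (hr.and (hgood.and hD.conc))).exists
    refine ⟨l, h4, ⟨h4, h2, fun μ hμ hK i hi => ?_⟩, h1⟩
    by_contra hcon
    exact h3 ⟨μ, hμ, hK, i, hi, hcon⟩
  · intro l hl hr hst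
    refine ⟨hl, hr, fun μ hμ hK i hi => ?_⟩
    intro C hC1 hC2
    have hN : ∀ ξ < l, ∃ c < l, ξ < c ∧ c.toZFSet ∈ C := by
      intro ξ hξ
      obtain ⟨c, hc, hc'⟩ := hC2.2.1 _ (tz_mem.2 hξ)
      obtain ⟨γ, hγ, rfl⟩ := Ordinal.mem_toZFSet_iff.1 (hC1 hc)
      exact ⟨γ, hγ, tz_mem.1 hc', hc⟩
    choose! N hN1 hN2 hN3 using hN
    obtain ⟨l', hl', ⟨hR, hμl'⟩, hcl⟩ := hst.tail hr hμ _ (fun x hx => (mem_sep.1 hx).1)
      (club_closure hr N hN1)
    rw [mem_sep] at hcl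
    obtain ⟨_, hne, hcl⟩ := hcl
    have hcl' : ∀ ξ < l', N ξ < l' := by
      intro ξ hξ
      have := hcl _ (tz_mem.2 hξ)
      rw [Ordinal.rank_toZFSet] at this
      exact tz_mem.1 this
    have hclub : Club (C ∩ l'.toZFSet) l'.toZFSet := by
      refine ⟨fun x hx => (mem_inter.1 hx).2, ?_, ?_⟩
      · intro x hx
        obtain ⟨ξ, hξ, rfl⟩ := Ordinal.mem_toZFSet_iff.1 hx
        exact ⟨_, mem_inter.2 ⟨hN3 ξ (hξ.trans hl'), tz_mem.2 (hcl' ξ hξ)⟩,
          tz_mem.2 (hN2 ξ (hξ.trans hl'))⟩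
      · intro a ha hne' hlim
        obtain ⟨α, hα, rfl⟩ := Ordinal.mem_toZFSet_iff.1 ha
        refine mem_inter.2 ⟨hC2.2.2 _ (tz_mem.2 (hα.trans hl')) hne' fun x hx => ?_, ha⟩
        obtain ⟨c, hc, hc'⟩ := hlim x hx
        exact ⟨c, (mem_inter.1 hc).1, hc'⟩
    obtain ⟨x, hx, hx'⟩ := hR.2.2 μ hμl' hK i hi (C ∩ l'.toZFSet) hclub.1 hclub
    rw [mem_inter] at hx hx'
    exact ⟨x, mem_inter.2 ⟨hx.1, hC1 hx'.1⟩, hx'.1⟩

/-- For all `μ < l` in `K` there is a partition of `cof(ω) ∩ l` into `μ` stationary sets in `HOD`. -/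
def SplitsFor (K : Set Ordinal.{u}) (l : Ordinal.{u}) : Prop :=
  ∀ μ < l, μ ∈ K → ∃ g, HOD g ∧ IsPart μ.toZFSet l.toZFSet g

theorem oneClub_splits (hκ : WeaklyCompact κ) (K : Set Ordinal.{u}) (h : SplitsFor K κ) :
    ∃ R, OneClub κ R ∧ ∀ l ∈ R, RegUnc l.toZFSet ∧ SplitsFor K l := by
  choose! g hg1 hg2 using h
  refine ⟨RR κ K (fun μ i => app (g μ) i.toZFSet), oneClub_RR hκ K _ ?_, ?_⟩
  · intro μ hμ hK i hi
    have hi' := tz_mem.2 hi
    have h1 := hg2 μ hμ hK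
    exact h1.2.1 _ hi' _ (mem_powerset.1 (app_mem h1.1 hi')) (app_spec h1.1 hi')
  · rintro l ⟨h1, h2, h3⟩
    refine ⟨h2, fun μ hμ hK => ⟨_, HOD_restr (hg1 μ (hμ.trans h1) hK) (hg2 μ (hμ.trans h1) hK).1,
      isPart_restr h1 (hg2 μ (hμ.trans h1) hK) fun i hi => h3 μ hμ hK i hi⟩⟩

theorem notStrMeas_oneClub (b : Bool) (hκ : WeaklyCompact κ) (hn : NotStrMeas b κ) :
    ∃ R, OneClub κ R ∧ ∀ l ∈ R, NotStrMeas b l ∧ SplitsFor {μ | Index b μ.toZFSet} l := by
  obtain ⟨R, h1, h2⟩ := oneClub_splits hκ {μ | Index b μ.toZFSet} (fun μ hμ hK =>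
    ((notStrMeas_iff b κ).1 hn).2 _ (tz_mem.2 hμ) hK (fewSub hκ _ hμ))
  refine ⟨R, h1, fun l hl => ⟨⟨(h2 l hl).1, ?_⟩, (h2 l hl).2⟩⟩
  rintro ⟨_, k, hk, h3, _, h4⟩
  obtain ⟨μ, hμ, rfl⟩ := Ordinal.mem_toZFSet_iff.1 hk
  exact h4 ((h2 l hl).2 μ hμ h3)

end Pool.Agent.H98.HD
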