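import Pool.Graph.R_pool_sql_team_seeded_2aa45f1a.H310.HD.Fodor

/-!
Weakly compact cardinals: for every small family of functions there is a complete filter which is normal
for these functions.
-/

set_option autoImplicit false
set_option linter.unusedVariables false

namespace Pool.Agent.H98.HD

open ZFSet Filter Cardinal Pool.Agent.H310.HD

universe u

variable {κ : Ordinal.{u}}

/-- The ordinal `κ` is a weakly compact cardinal: it is a regular uncountable strong limit cardinal, and for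
every partition of the pairs `a < b < κ` into two classes there is a homogeneous set `H ⊆ κ` which is
unbounded in `κ`. -/
structure WeaklyCompact (κ : Ordinal.{u}) : Prop where
  reg : RegUnc κ.toZFSet
  lim : ∀ μ < κ, (2 : Cardinal.{u}) ^ μ.card < κ.card
  part : ∀ c : Ordinal.{u} → Ordinal.{u} → Prop, ∃ H : Set Ordinal.{u}, (∀ a ∈ H, a < κ) ∧
    (∀ ξ < κ, ∃ a ∈ H, ξ < a) ∧
    ((∀ a ∈ H, ∀ b ∈ H, a < b → c a b) ∨ ∀ a ∈ H, ∀ b ∈ H, a < b → ¬ c a b)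

theorem bddT (hκ : RegUnc κ.toZFSet) {T : Type u} (hT : #T < κ.card) (f : T → Ordinal.{u})
    (hf : ∀ t, f t < κ) : ∃ b < κ, ∀ t, f t < b := by
  classical
  have h1 : (#T).ord < κ := lt_of_lt_of_le (Cardinal.ord_lt_ord.2 hT) (Cardinal.ord_card_le κ)
  have h2 : #T = #((#T).ord.ToType) := by rw [Cardinal.mk_toType, Cardinal.card_ord]
  obtain ⟨e⟩ := Cardinal.eq.1 h2
  obtain ⟨b, hb, h3⟩ := hκ.bdd h1 (fun i => if h : i < (#T).ord then
    f (e.symm (Ordinal.ToType.mk ⟨i, h⟩)) else 0) (fun i hi => by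
      rw [dif_pos hi]
      exact hf _)
  refine ⟨b, hb, fun t => ?_⟩
  have h4 := h3 (Ordinal.ToType.mk.symm (e t)).1 (Ordinal.ToType.mk.symm (e t)).2
  have h5 : ((Ordinal.ToType.mk.symm (e t)).1 : Ordinal.{u}) < (#T).ord := (Ordinal.ToType.mk.symm (e t)).2
  rw [dif_pos h5] at h4
  have h6 : Ordinal.ToType.mk ⟨(Ordinal.ToType.mk.symm (e t)).1, h5⟩ = e t := by
    exact Ordinal.ToType.mk.apply_symm_apply (e t)
  rwa [h6, Equiv.symm_apply_apply] at h4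

theorem pigeon (hκ : RegUnc κ.toZFSet) {T : Type u} (hT : #T < κ.card) {H : Set Ordinal.{u}}
    (hH : ∀ ξ < κ, ∃ a ∈ H, ξ < a) (f : Ordinal.{u} → T) :
    ∃ t, ∀ ξ < κ, ∃ a ∈ H, ξ < a ∧ f a = t := by
  by_contra hcon
  push Not at hcon
  choose g hg1 hg2 using hcon
  obtain ⟨b, hb, h⟩ := bddT hκ hT g hg1
  obtain ⟨a, ha, hba⟩ := hH b hb
  exact hg2 (f a) a ha ((h _).trans hba) rfl

/-- the monotone case -/
theorem decide_mono (hκ : WeaklyCompact κ) {H : Set Ordinal.{u}} (hHκ : ∀ a ∈ H, a < κ)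
    (hH : ∀ ξ < κ, ∃ a ∈ H, ξ < a) {Y : Ordinal.{u} → Ordinal.{u} → Prop}
    (hY : ∀ a ∈ H, ∀ b ∈ H, a < b → ∀ δ < κ, (∀ δ' < δ, (Y δ' a ↔ Y δ' b)) → Y δ a → Y δ b)
    {γ : Ordinal.{u}} (hγ : γ < κ) :
    ∃ ξ < κ, ∀ a ∈ H, ∀ b ∈ H, ξ < a → ξ < b → ∀ δ < γ, (Y δ a ↔ Y δ b) := by
  classical
  have hT : #(Set γ.ToType) < κ.card := by
    rw [Cardinal.mk_set, Cardinal.mk_toType]
    exact hκ.lim γ hγ
  obtain ⟨t, ht⟩ := pigeon hκ.reg hT hH (fun a => {x : γ.ToType | Y (Ordinal.ToType.mk.symm x).1 a})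
  have key : ∀ a b, ({x : γ.ToType | Y (Ordinal.ToType.mk.symm x).1 a} = t) →
      ({x : γ.ToType | Y (Ordinal.ToType.mk.symm x).1 b} = t) → ∀ δ < γ, (Y δ a ↔ Y δ b) := by
    intro a b ha hb δ hδ
    have h1 : (Ordinal.ToType.mk ⟨δ, hδ⟩ ∈ {x : γ.ToType | Y (Ordinal.ToType.mk.symm x).1 a}) ↔
        (Ordinal.ToType.mk ⟨δ, hδ⟩ ∈ {x : γ.ToType | Y (Ordinal.ToType.mk.symm x).1 b}) := by
      rw [ha, hb]
    simpa using h1
  obtain ⟨a₀, ha₀, -, ha₀'⟩ := ht 0 hκ.reg.pos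
  have main : ∀ b ∈ H, a₀ < b → ∀ δ < γ, (Y δ b ↔ Y δ a₀) := by
    intro b hb hab
    obtain ⟨b', hb', hbb', hb't⟩ := ht b (hHκ b hb)
    intro δ
    induction δ using WellFoundedLT.induction with
    | ind δ ih =>
      intro hδ
      have hδκ := hδ.trans hγ
      have h1 : ∀ δ' < δ, (Y δ' b ↔ Y δ' a₀) := fun δ' hδ' => ih δ' hδ' (hδ'.trans hδ)
      have h2 : ∀ δ' < δ, (Y δ' b ↔ Y δ' b') := fun δ' hδ' =>
        (h1 δ' hδ').trans (key a₀ b' ha₀' hb't δ' (hδ'.trans hδ))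
      constructor
      · intro h
        exact (key a₀ b' ha₀' hb't δ hδ).2 (hY b hb b' hb' hbb' δ hδκ h2 h)
      · intro h
        exact hY a₀ ha₀ b hb hab δ hδκ (fun δ' hδ' => (h1 δ' hδ').symm) h
  refine ⟨a₀, hHκ _ ha₀, fun a ha b hb h1 h2 δ hδ => ?_⟩
  exact (main a ha h1 δ hδ).trans (main b hb h2 δ hδ).symm

/-- A filter is `κ`-complete on `κ`. -/
structure CompleteOn (κ : Ordinal.{u}) (D : Filter Ordinal.{u}) : Prop where
  ne : D.NeBot
  conc : ∀ᶠ l in D, l < κ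
  tail : ∀ ξ < κ, ∀ᶠ l in D, ξ < l
  complete : ∀ (T : Type u), #T < κ.card → ∀ p : T → Ordinal.{u} → Prop, (∀ t, ∀ᶠ l in D, p t l) →
    ∀ᶠ l in D, ∀ t, p t l

/-- For less than or equal to `κ` many sets there is a `κ`-complete filter which decides them. -/
theorem exists_decide (hκ : WeaklyCompact κ) (J : Type u) (hJ : #J ≤ κ.card)
    (X : J → Ordinal.{u} → Prop) : ∃ D : Filter Ordinal.{u}, CompleteOn κ D ∧
      ∀ j, (∀ᶠ l in D, X j l) ∨ ∀ᶠ l in D, ¬ X j l := by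
  classical
  have h1 : #J ≤ #κ.ToType := by rwa [Cardinal.mk_toType]
  obtain ⟨⟨e, he⟩⟩ := Cardinal.le_def _ _ |>.1 h1
  let Y : Ordinal.{u} → Ordinal.{u} → Prop := fun δ ε =>
    ∃ j, (Ordinal.ToType.mk.symm (e j)).1 = δ ∧ X j ε
  obtain ⟨H, hHκ, hH, hc⟩ := hκ.part fun a b => ∀ δ < κ, (∀ δ' < δ, (Y δ' a ↔ Y δ' b)) → Y δ a → Y δ b
  have hdec : ∀ γ < κ, ∃ ξ < κ, ∀ a ∈ H, ∀ b ∈ H, ξ < a → ξ < b → ∀ δ < γ, (Y δ a ↔ Y δ b) := by
    intro γ hγ
    rcases hc with hc | hc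
    · exact decide_mono hκ hHκ hH hc hγ
    · obtain ⟨ξ, hξ, h⟩ := decide_mono (Y := fun δ ε => ¬ Y δ ε) hκ hHκ hH (by
        intro a ha b hb hab δ hδ hag hna
        have h2 := hc a ha b hb hab
        push Not at h2
        obtain ⟨δ₀, hδ₀, h3, h4, h5⟩ := h2
        rcases lt_trichotomy δ δ₀ with h6 | h6 | h6
        · rwa [← h3 δ h6]
        · subst h6; exact h5
        · exact absurd ((not_iff_not.1 (hag δ₀ h6)).1 h4) h5) hγ
      exact ⟨ξ, hξ, fun a ha b hb h1 h2 δ hδ => not_iff_not.1 (h a ha b hb h1 h2 δ hδ)⟩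
  let D : Filter Ordinal.{u} :=
    { sets := {Z | ∃ ξ < κ, ∀ a ∈ H, ξ < a → a ∈ Z}
      univ_sets := ⟨0, hκ.reg.pos, fun _ _ _ => trivial⟩
      sets_of_superset := by
        rintro Z Z' ⟨ξ, hξ, h⟩ hZ
        exact ⟨ξ, hξ, fun a ha ha' => hZ (h a ha ha')⟩
      inter_sets := by
        rintro Z Z' ⟨ξ, hξ, h⟩ ⟨ξ', hξ', h'⟩
        exact ⟨max ξ ξ', max_lt hξ hξ', fun a ha ha' => ⟨h a ha ((le_max_left _ _).trans_lt ha'),
          h' a ha ((le_max_right _ _).trans_lt ha')⟩⟩ }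
  have hD : ∀ p : Ordinal.{u} → Prop, (∀ᶠ l in D, p l) ↔ ∃ ξ < κ, ∀ a ∈ H, ξ < a → p a :=
    fun p => Iff.rfl
  refine ⟨D, ⟨?_, ?_, ?_, ?_⟩, ?_⟩
  · rw [Filter.neBot_iff]
    intro h2
    have h3 : ∀ᶠ l in D, False := by rw [h2]; exact Filter.eventually_bot
    obtain ⟨ξ, hξ, h4⟩ := (hD _).1 h3
    obtain ⟨a, ha, hξa⟩ := hH ξ hξ
    exact h4 a ha hξa
  · exact (hD _).2 ⟨0, hκ.reg.pos, fun a ha _ => hHκ a ha⟩
  · exact fun ξ hξ => (hD _).2 ⟨ξ, hξ, fun a _ h => h⟩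
  · intro T hT p hp
    simp only [hD] at hp ⊢
    choose g hg1 hg2 using hp
    obtain ⟨b, hb, h⟩ := bddT hκ.reg hT g hg1
    exact ⟨b, hb, fun a ha hba t => hg2 t a ha ((h t).trans hba)⟩
  · intro j
    have h2 : Order.succ (Ordinal.ToType.mk.symm (e j)).1 < κ :=
      hκ.reg.succ_lt (Ordinal.ToType.mk.symm (e j)).2
    obtain ⟨ξ, hξ, h3⟩ := hdec _ h2
    have h4 : ∀ a, Y (Ordinal.ToType.mk.symm (e j)).1 a ↔ X j a := by
      intro a
      constructor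
      · rintro ⟨j', hj', h5⟩
        have h6 := he (Ordinal.ToType.mk.symm.injective (Subtype.ext hj'))
        rwa [h6] at h5
      · exact fun h5 => ⟨j, rfl, h5⟩
    obtain ⟨a₀, ha₀, h5⟩ := hH ξ hξ
    by_cases h6 : X j a₀
    · refine Or.inl ((hD _).2 ⟨ξ, hξ, fun a ha hξa => ?_⟩)
      rw [← h4, h3 a ha a₀ ha₀ hξa h5 _ (Order.lt_succ _), h4]
      exact h6
    · refine Or.inr ((hD _).2 ⟨ξ, hξ, fun a ha hξa => ?_⟩)
      rw [← h4, h3 a ha a₀ ha₀ hξa h5 _ (Order.lt_succ _), h4]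
      exact h6

/-- Composition along a list of functions. -/
def comp {J : Type u} (G : J → Ordinal.{u} → Ordinal.{u}) : List J → Ordinal.{u} → Ordinal.{u}
  | [] => id
  | j :: w => G j ∘ comp G w

/-- For at most `κ` many functions there is a `κ`-complete filter which decides where they are regressive,
and such that the regressive ones are almost everywhere constant. -/
theorem exists_normal (hκ : WeaklyCompact κ) (J : Type u) (hJ : #J ≤ κ.card)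
    (G : J → Ordinal.{u} → Ordinal.{u}) : ∃ D : Filter Ordinal.{u}, CompleteOn κ D ∧
      (∀ j, (∀ᶠ l in D, G j l < l) ∨ ∀ᶠ l in D, ¬ G j l < l) ∧
      ∀ j, (∀ᶠ l in D, G j l < l) → ∃ ξ, ∀ᶠ l in D, G j l = ξ := by
  classical
  have hinf : ℵ₀ ≤ κ.card := by
    have := Ordinal.card_le_card hκ.reg.om_lt.le
    rwa [Ordinal.card_omega0] at this
  have hL : #(List J) ≤ κ.card := (Cardinal.mk_list_le_max J).trans (max_le hinf hJ)
  have hLL : #((List J × List J) ⊕ (List J × κ.ToType)) ≤ κ.card := by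
    rw [Cardinal.mk_sum, Cardinal.lift_id, Cardinal.lift_id, Cardinal.mk_prod, Cardinal.mk_prod,
      Cardinal.lift_id, Cardinal.lift_id, Cardinal.mk_toType]
    refine Cardinal.add_le_of_le hinf ?_ ?_
    · exact (mul_le_mul' hL hL).trans (Cardinal.mul_eq_self hinf).le
    · exact (mul_le_mul' hL le_rfl).trans (Cardinal.mul_eq_self hinf).le
  obtain ⟨D, hD, hdec⟩ := exists_decide hκ _ hLL (fun i ε => match i with
    | Sum.inl (w, w') => comp G w ε < comp G w' ε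
    | Sum.inr (w, t) => comp G w ε ≤ (Ordinal.ToType.mk.symm t).1)
  have := hD.ne
  have d1 : ∀ w w', (∀ᶠ l in D, comp G w l < comp G w' l) ∨ ∀ᶠ l in D, ¬ comp G w l < comp G w' l :=
    fun w w' => hdec (Sum.inl (w, w'))
  have d2 : ∀ w, ∀ ξ < κ, (∀ᶠ l in D, comp G w l ≤ ξ) ∨ ∀ᶠ l in D, ¬ comp G w l ≤ ξ := by
    intro w ξ hξ
    have := hdec (Sum.inr (w, Ordinal.ToType.mk ⟨ξ, hξ⟩))
    simpa using this
  have hwf : WellFounded fun w w' : List J => ∀ᶠ l in D, comp G w l < comp G w' l := by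
    rw [wellFounded_iff_isEmpty_descending_chain]
    refine ⟨?_⟩
    rintro ⟨F, hF⟩
    have h1 : ∀ᶠ l in D, ∀ n : ULift.{u} ℕ, comp G (F (n.down + 1)) l < comp G (F n.down) l := by
      refine hD.complete _ ?_ _ fun n => hF n.down
      rw [Cardinal.mk_uLift, Cardinal.mk_nat, Cardinal.lift_aleph0]
      refine lt_of_lt_of_le (Cardinal.cantor ℵ₀) ?_
      have := hκ.lim Ordinal.omega0 hκ.reg.om_lt
      rw [Ordinal.card_omega0] at this
      exact this.le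
    obtain ⟨l, hl⟩ := h1.exists
    exact (wellFounded_iff_isEmpty_descending_chain.1 (wellFounded_lt (α := Ordinal.{u}))).false
      ⟨fun n => comp G (F n) l, fun n => hl ⟨n⟩⟩
  obtain ⟨w₀, hw₀, hmin⟩ := hwf.has_min {w | ∀ ξ < κ, ∀ᶠ l in D, ξ < comp G w l} ⟨[], hD.tail⟩
  have hle : ∀ᶠ l in D, comp G w₀ l ≤ l := by
    rcases d1 [] w₀ with h | h
    · exact absurd h (hmin [] hD.tail)
    · exact h.mono fun l hl => not_lt.1 hl
  refine ⟨D.map (comp G w₀), ⟨inferInstance, ?_, fun ξ hξ => hw₀ ξ hξ, ?_⟩, ?_, ?_⟩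
  · rw [Filter.eventually_map]
    filter_upwards [hle, hD.conc] with l h1 h2
    exact h1.trans_lt h2
  · intro T hT p hp
    simp only [Filter.eventually_map] at hp ⊢
    exact hD.complete T hT _ hp
  · intro j
    exact d1 (j :: w₀) w₀
  · intro j hj
    simp only [Filter.eventually_map] at hj ⊢
    have h1 : ¬ ∀ ξ < κ, ∀ᶠ l in D, ξ < comp G (j :: w₀) l := fun h => hmin (j :: w₀) h hj
    rw [not_forall] at h1
    obtain ⟨ξ₀, h1⟩ := h1
    rw [Classical.not_imp] at h1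
    obtain ⟨hξ₀, h2⟩ := h1
    have h3 : ∃ ξ, ξ < κ ∧ ∀ᶠ l in D, comp G (j :: w₀) l ≤ ξ := by
      refine ⟨ξ₀, hξ₀, ?_⟩
      rcases d2 (j :: w₀) ξ₀ hξ₀ with h | h
      · exact h
      · exact absurd (h.mono fun l hl => not_le.1 hl) h2
    obtain ⟨ξ, ⟨hξ, h4⟩, h5⟩ := WellFounded.has_min (wellFounded_lt (α := Ordinal.{u}))
      {ξ | ξ < κ ∧ ∀ᶠ l in D, comp G (j :: w₀) l ≤ ξ} h3
    refine ⟨ξ, ?_⟩
    have h6 : ∀ᶠ l in D, ∀ t : ξ.ToType, ¬ comp G (j :: w₀) l ≤ (Ordinal.ToType.mk.symm t).1 := by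
      refine hD.complete _ ?_ _ fun t => ?_
      · rw [Cardinal.mk_toType]
        exact (Cardinal.cantor _).trans (hκ.lim ξ hξ)
      · have h7 : (Ordinal.ToType.mk.symm t).1 < ξ := (Ordinal.ToType.mk.symm t).2
        rcases d2 (j :: w₀) _ (h7.trans hξ) with h | h
        · exact absurd h7 (h5 _ ⟨h7.trans hξ, h⟩)
        · exact h
    filter_upwards [h4, h6] with l h7 h8
    refine le_antisymm h7 ?_
    by_contra hcon
    push Not at hcon
    have h9 := h8 (Ordinal.ToType.mk ⟨_, hcon⟩)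
    simp only [OrderIso.symm_apply_apply] at h9
    exact h9 le_rfl

end Pool.Agent.H98.HD
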